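import Pool.Agent.L7h83.GK.Stm
import Pool.Agent.H416R3.GD.Goddyn

set_option autoImplicit false
set_option linter.unusedSectionVars false

/-!
Project GK: the faithful circuit cover from the layers.
-/

namespace Pool.Agent.L7h60.GK

open Finset
open Pool.Agent.H126R2.CDC (T3 IsFl MGraph)
open Pool.Agent.Helper879.ECD (F2 f2_add_self)
open Pool.Agent.H825R2.EW (cut mem_cut)
open Pool.Agent.H126R2.NC (InIntCone countP_sum)
open Pool.Agent.L7h83.GK

theorem s_FIN (hSW : S_SW) : S_FIN := by
  classical
  intro V E _ _ _ _ G s K hK hcon hYZ w hw hbd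
  obtain ⟨v, hv⟩ := G.exists_halves
  have hcut : ∀ (X : Finset V) (f : E), f ∈ cut G univ X ↔ ∃ a ∈ X, ∃ b ∉ X, G.ends f = s(a, b) := by
    intro X f
    rw [mem_cut G v hv]
    simp only [Finset.mem_univ, true_and]
    constructor
    · intro h
      by_cases h1 : v (f, false) ∈ X
      · have h2 : v (f, true) ∉ X := fun h2 => h ⟨fun _ => h2, fun _ => h1⟩
        exact ⟨_, h1, _, h2, hv f⟩
      · have h2 : v (f, true) ∈ X := by
          by_contra h2
          exact h ⟨fun h3 => absurd h3 h1, fun h3 => absurd h3 h2⟩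
        exact ⟨_, h2, _, h1, by rw [hv f, Sym2.eq_swap]⟩
    · rintro ⟨a, ha, b, hb, hab⟩ h
      rw [hv f, Sym2.eq_iff] at hab
      rcases hab with ⟨h1, h2⟩ | ⟨h1, h2⟩
      · rw [h1, h2] at h
        exact hb (h.1 ha)
      · rw [h1, h2] at h
        exact hb (h.2 ha)
  have hcross : ∀ (X : Finset V) (f : E), (∃ a ∈ X, ∃ b ∉ X, G.ends f = s(a, b)) →
      ¬ (v (f, false) ∈ X ↔ v (f, true) ∈ X) := by
    intro X f hf
    exact ((mem_cut G v hv univ X f).1 ((hcut X f).2 hf)).2
  apply Pool.Agent.H416R3.GD.cover_of_even_part G w (fun X => hw X _ (hcut X))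
  have hT : ∀ e, ∃ T ⊆ univ.filter (fun i => e ∈ K i), T.card = w e / 2 - s := by
    intro e
    apply Finset.exists_subset_card_eq
    have := hbd e
    omega
  choose T hT1 hT2 using hT
  have hlay : ∀ i : Fin s, ∃ S : E → Finset T3,
      (∀ c, IsFl v (fun e => if c ∈ S e then 1 else 0)) ∧
      ∀ e, (S e).card = if e ∈ univ.filter (fun e => i ∈ T e) then 4 else 2 := by
    intro i
    obtain ⟨Y, Z, hY, hZ, hall⟩ := hYZ i
    let A : Fin 3 → E → F2 := fun j e =>
      if j = 0 then (if e ∈ K i then 1 else 0) else if j = 1 then (if e ∈ Y then 1 else 0)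
        else (if e ∈ Z then 1 else 0)
    have hA0 : ∀ e, A 0 e = if e ∈ K i then 1 else 0 := fun e => by simp [A]
    have hA1 : ∀ e, A 1 e = if e ∈ Y then 1 else 0 := fun e => by simp [A]
    have hA2 : ∀ e, A 2 e = if e ∈ Z then 1 else 0 := fun e => by simp [A]
    apply hSW V E v A
    · intro j
      fin_cases j
      · exact (G.isEven_iff v hv (K i)).1 (hK i)
      · exact (G.isEven_iff v hv Y).1 hY
      · exact (G.isEven_iff v hv Z).1 hZ
    · intro e
      rw [hA0, hA1, hA2]
      rcases hall e with h | h | h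
      · left; rw [if_pos h]; decide
      · right; left; rw [if_pos h]; decide
      · right; right; rw [if_pos h]; decide
    · intro X hX1 hX2
      obtain ⟨e, he, hab⟩ := hcon i X hX1 hX2
      refine ⟨e, ?_, hcross X e hab⟩
      rw [hA0, if_neg he]
    · intro e he
      have h1 := (Finset.mem_filter.1 (hT1 e (Finset.mem_filter.1 he).2)).2
      rw [hA0, if_pos h1]
      decide
  choose S hS1 hS2 using hlay
  have hev : ∀ (i : Fin s) (c : T3), G.IsEven (univ.filter (fun e => c ∈ S i e)) := by
    intro i c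
    rw [G.isEven_iff v hv]
    have h1 := hS1 i c
    have h2 : (fun e => if e ∈ univ.filter (fun e => c ∈ S i e) then (1 : F2) else 0) =
        (fun e => if c ∈ S i e then 1 else 0) := by
      ext e; simp
    rw [h2]
    exact h1
  choose F hF1 hF2 using fun (i : Fin s) (c : T3) => G.decompose _ _ rfl (hev i c)
  refine ⟨∑ i : Fin s, ∑ c : T3, F i c, ?_, ?_⟩
  · intro C hC
    rw [Multiset.mem_sum] at hC
    obtain ⟨i, _, hi⟩ := hC
    rw [Multiset.mem_sum] at hi
    obtain ⟨c, _, hc⟩ := hi
    exact hF1 i c C hc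
  · intro e
    rw [countP_sum]
    have h1 : ∀ i ∈ (univ : Finset (Fin s)), (∑ c : T3, F i c).countP (fun C => e ∈ C) =
        2 + 2 * (if i ∈ T e then 1 else 0) := by
      intro i _
      rw [countP_sum]
      have h2 : ∀ c ∈ (univ : Finset T3), (F i c).countP (fun C => e ∈ C) =
          if c ∈ S i e then 1 else 0 := by
        intro c _
        rw [hF2 i c e]
        simp
      rw [Finset.sum_congr rfl h2, Finset.sum_boole]
      have h3 : (univ.filter (fun c => c ∈ S i e)) = S i e := by
        ext c; simp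
      rw [h3, hS2 i e]
      by_cases h4 : i ∈ T e
      · rw [if_pos h4, if_pos (by rw [Finset.mem_filter]; exact ⟨mem_univ _, h4⟩)]
        norm_num
      · rw [if_neg h4, if_neg (by rw [Finset.mem_filter]; exact fun h5 => h4 h5.2)]
        norm_num
    rw [Finset.sum_congr rfl h1, Finset.sum_add_distrib, ← Finset.mul_sum, Finset.sum_boole]
    have h5 : (univ.filter (fun i => i ∈ T e)) = T e := by
      ext i; simp
    rw [h5, hT2 e]
    have := hbd e
    simp only [Finset.sum_const, Finset.card_univ, Fintype.card_fin, smul_eq_mul, Nat.cast_id]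
    omega

end Pool.Agent.L7h60.GK
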