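import Pool.Agent.L7h83.GK.Stm

set_option autoImplicit false
set_option linter.unusedSectionVars false

/-!
Project GK: graphs with degrees at most three.
-/

namespace Pool.Agent.L7h60.GK

open Finset
open Pool.Agent.H126R2.CDC (T3 IsFl excess MGraph lab toB dot inS card_inS lift isFl_iff toB_dot
  lab_congr lab_add f2_eq_of_add f2_eq_of_add3 xor3 tri_inS)
open Pool.Agent.Helper879.ECD (F2 f2_add_self)
open Pool.Agent.L7h83.GK

theorem tabA : ∀ x t c c' : T3, dot x t = true → x.1 = false → inS c x t = true →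
    inS c' x t = true → c.1 = c'.1 := by decide +kernel

theorem tabB : ∀ x t : T3, ∀ b : Bool, dot x t = true → x.1 = true →
    ((univ.filter (fun c : T3 => inS c x t = true)) ∩
      (univ.filter (fun c : T3 => c.1 = b))).card = 1 := by decide +kernel

theorem tabP : ∀ b : Bool, (univ.filter (fun c : T3 => c.1 = b)).card = 4 := by decide +kernel

/-- the colouring when all degrees are at most three, with its labels -/
theorem low_lab {W E : Type} [Fintype W] [DecidableEq W] [Fintype E] [DecidableEq E]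
    (v : E × Bool → W) (hdeg : ∀ w, (univ.filter (fun h => v h = w)).card ≤ 3)
    (A : Fin 3 → E → F2) (hA : ∀ i, IsFl v (A i))
    (hnz : ∀ e, A 0 e ≠ 0 ∨ A 1 e ≠ 0 ∨ A 2 e ≠ 0) :
    ∃ B : Fin 3 → E → F2, (∀ e, dot (lab A e) (lab B e) = true) ∧
      ∀ c, IsFl v (fun e => if c ∈ univ.filter
        (fun c : T3 => inS c (lab A e) (lab B e) = true) then 1 else 0) := by
  obtain ⟨B, hB, hAB⟩ := lift (fun e => v (e, false)) (fun e => v (e, true)) A
    (fun i => (isFl_iff v (A i)).1 (hA i)) hnz
  have hB' : ∀ i, IsFl v (B i) := fun i => (isFl_iff v (B i)).2 (hB i)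
  have hdot : ∀ e, dot (lab A e) (lab B e) = true := fun e => toB_dot _ _ _ _ _ _ (hAB e)
  refine ⟨B, hdot, ?_⟩
  · intro c w
    have hgoal : ∀ g : E → F2, ∑ h : E × Bool, (if v h = w then g h.1 else 0) =
        ∑ h ∈ univ.filter (fun h => v h = w), g h.1 := by
      intro g; rw [Finset.sum_filter]
    have hA2 : ∀ i, ∑ h ∈ univ.filter (fun h => v h = w), A i h.1 = 0 := by
      intro i; rw [← hgoal]; exact hA i w
    have hB2 : ∀ i, ∑ h ∈ univ.filter (fun h => v h = w), B i h.1 = 0 := by
      intro i; rw [← hgoal]; exact hB' i w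
    simp only [Finset.mem_filter, Finset.mem_univ, true_and]
    rw [hgoal (fun e => if inS c (lab A e) (lab B e) = true then 1 else 0)]
    have hd := hdeg w
    generalize univ.filter (fun h => v h = w) = H at *
    have hcases : H.card = 0 ∨ H.card = 1 ∨ H.card = 2 ∨ H.card = 3 := by omega
    rcases hcases with h0 | h0 | h0 | h0
    · rw [Finset.card_eq_zero.1 h0, Finset.sum_empty]
    · obtain ⟨x, rfl⟩ := Finset.card_eq_one.1 h0
      exfalso
      simp only [Finset.sum_singleton] at hA2
      rcases hnz x.1 with h | h | h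
      · exact h (hA2 0)
      · exact h (hA2 1)
      · exact h (hA2 2)
    · obtain ⟨x, y, hxy, rfl⟩ := Finset.card_eq_two.1 h0
      rw [Finset.sum_pair hxy]
      have h1 : lab A x.1 = lab A y.1 := lab_congr A _ _ (fun i => by
        have := hA2 i
        rw [Finset.sum_pair hxy] at this
        exact f2_eq_of_add this)
      have h2 : lab B x.1 = lab B y.1 := lab_congr B _ _ (fun i => by
        have := hB2 i
        rw [Finset.sum_pair hxy] at this
        exact f2_eq_of_add this)
      rw [h1, h2]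
      exact f2_add_self _
    · obtain ⟨x, y, z, hxy, hxz, hyz, rfl⟩ := Finset.card_eq_three.1 h0
      have hs : ∀ g : E × Bool → F2, ∑ h ∈ ({x, y, z} : Finset (E × Bool)), g h =
          g x + (g y + g z) := by
        intro g
        rw [Finset.sum_insert (by simp [hxy, hxz]), Finset.sum_pair hyz]
      rw [hs]
      have h1 : lab A z.1 = T3.add (lab A x.1) (lab A y.1) := lab_add A _ _ _ (fun i => by
        have := hA2 i
        rw [hs] at this
        exact f2_eq_of_add3 this)
      have h2 : lab B z.1 = T3.add (lab B x.1) (lab B y.1) := lab_add B _ _ _ (fun i => by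
        have := hB2 i
        rw [hs] at this
        exact f2_eq_of_add3 this)
      apply xor3
      rw [h1, h2]
      apply tri_inS
      rw [hdot x.1, hdot y.1, ← h1, ← h2, hdot z.1]
      rfl

/-- two edges at a vertex of degree at most three whose colour sets are disjoint -/
theorem meet_of_vertex {W E : Type} [Fintype W] [DecidableEq W] [Fintype E] [DecidableEq E]
    (v : E × Bool → W) (hdeg : ∀ w, (univ.filter (fun h => v h = w)).card ≤ 3)
    (S : E → Finset T3) (hS : ∀ e, (S e).card = 2)
    (hfl : ∀ c, IsFl v (fun e => if c ∈ S e then 1 else 0))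
    (e f : E) (s t : Bool) (hv : v (e, s) = v (f, t)) : ∃ c, c ∈ S e ∧ c ∈ S f := by
  by_contra hcon
  push Not at hcon
  have hne : ((e, s) : E × Bool) ≠ (f, t) := by
    intro h
    have h1 : e = f := congrArg Prod.fst h
    obtain ⟨c, hc⟩ := Finset.card_pos.1 (show 0 < (S e).card by rw [hS]; norm_num)
    exact hcon c hc (h1 ▸ hc)
  set H := univ.filter (fun h => v h = v (e, s)) with hH
  have hHc : H.card ≤ 3 := hdeg _
  have m1 : ((e, s) : E × Bool) ∈ H := by rw [hH, Finset.mem_filter]; exact ⟨mem_univ _, rfl⟩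
  have m2 : ((f, t) : E × Bool) ∈ H.erase (e, s) := by
    rw [Finset.mem_erase, hH, Finset.mem_filter]
    exact ⟨Ne.symm hne, mem_univ _, hv.symm⟩
  set K := (H.erase (e, s)).erase (f, t) with hK
  have hKc : K.card ≤ 1 := by
    rw [hK, Finset.card_erase_of_mem m2, Finset.card_erase_of_mem m1]
    omega
  have hsum : ∀ g : E → F2, (∑ h : E × Bool, (if v h = v (e, s) then g h.1 else 0)) =
      g e + (g f + ∑ h ∈ K, g h.1) := by
    intro g
    rw [← Finset.sum_filter, ← hH, ← Finset.add_sum_erase H (fun h => g h.1) m1,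
      ← Finset.add_sum_erase (H.erase (e, s)) (fun h => g h.1) m2]
  have hmem : ∀ c, (c ∈ S e ∨ c ∈ S f) → ∑ h ∈ K, (if c ∈ S h.1 then (1 : F2) else 0) = 1 := by
    intro c hc
    have h1 := hfl c (v (e, s))
    rw [hsum (fun e => if c ∈ S e then 1 else 0)] at h1
    rcases hc with hc | hc
    · rw [if_pos hc, if_neg (hcon c hc), zero_add] at h1
      exact (f2_eq_of_add h1).symm
    · have h2 : c ∉ S e := fun h => hcon c h hc
      rw [if_neg h2, if_pos hc, zero_add] at h1
      exact (f2_eq_of_add h1).symm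
  obtain ⟨c0, hc0⟩ := Finset.card_pos.1 (show 0 < (S e).card by rw [hS]; norm_num)
  rcases Nat.eq_zero_or_pos K.card with hk | hk
  · have h1 := hmem c0 (Or.inl hc0)
    rw [Finset.card_eq_zero.1 hk, Finset.sum_empty] at h1
    exact absurd h1 (by decide)
  · obtain ⟨k, hk1⟩ := Finset.card_eq_one.1 (le_antisymm hKc hk)
    have h2 : S e ∪ S f ⊆ S k.1 := by
      intro c hc
      have h1 := hmem c (Finset.mem_union.1 hc)
      rw [hk1, Finset.sum_singleton] at h1
      by_contra h3
      rw [if_neg h3] at h1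
      exact absurd h1 (by decide)
    have h3 := Finset.card_le_card h2
    have h4 : Disjoint (S e) (S f) := by
      rw [Finset.disjoint_left]
      exact fun c h5 h6 => hcon c h5 h6
    rw [Finset.card_union_of_disjoint h4, hS, hS, hS] at h3
    omega

theorem s_LOW : S_LOW := by
  intro W E _ _ _ _ v A R hdeg hyp
  obtain ⟨hA, hnz, hR, hch⟩ := hyp
  obtain ⟨B, hdot, hfl⟩ := low_lab v hdeg A hA hnz
  set S : E → Finset T3 := fun e =>
    univ.filter (fun c : T3 => inS c (lab A e) (lab B e) = true) with hSdef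
  have hS : ∀ e, (S e).card = 2 := fun e => card_inS _ _ (hdot e)
  have hlab : ∀ e, A 0 e = 0 → (lab A e).1 = false := by
    intro e he
    simp [lab, toB, he]
  have hlab' : ∀ e, A 0 e ≠ 0 → (lab A e).1 = true := by
    intro e he
    simp [lab, toB, he]
  have hside : ∀ e, A 0 e = 0 → ∀ c ∈ S e, ∀ c' ∈ S e, c.1 = c'.1 := by
    intro e he c hc c' hc'
    exact tabA _ _ _ _ (hdot e) (hlab e he) (Finset.mem_filter.1 hc).2 (Finset.mem_filter.1 hc').2
  have hstep : ∀ e f, A 0 e = 0 → Relation.ReflTransGen (Stp v (A 0)) e f →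
      A 0 f = 0 ∧ ∀ c ∈ S e, ∀ c' ∈ S f, c.1 = c'.1 := by
    intro e f he hef
    induction hef with
    | refl => exact ⟨he, hside e he⟩
    | tail h1 h2 ih =>
      obtain ⟨ih1, ih2⟩ := ih
      obtain ⟨h3, s, t, h4⟩ := h2
      refine ⟨h3, ?_⟩
      intro c hc c' hc'
      obtain ⟨d, hd1, hd2⟩ := meet_of_vertex v hdeg S hS hfl _ _ s t h4
      exact (ih2 c hc d hd1).trans (hside _ h3 d hd2 c' hc')
  have hb : ∃ b : Bool, ∀ e, R e → ∀ c ∈ S e, c.1 = b := by
    by_cases hex : ∃ e, R e
    · obtain ⟨e, he⟩ := hex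
      obtain ⟨c, hc⟩ := Finset.card_pos.1 (show 0 < (S e).card by rw [hS]; norm_num)
      refine ⟨c.1, fun f hf c' hc' => ?_⟩
      exact ((hstep e f (hR e he) (hch e f he hf)).2 c hc c' hc').symm
    · exact ⟨true, fun e he => absurd ⟨e, he⟩ hex⟩
  obtain ⟨b, hb⟩ := hb
  refine ⟨S, univ.filter (fun c : T3 => c.1 = b), tabP b, hS, hfl, ?_, ?_⟩
  · intro e he c hc
    rw [Finset.mem_filter]
    exact ⟨mem_univ _, hb e he c hc⟩
  · intro e he
    exact tabB _ _ b (hdot e) (hlab' e he)

end Pool.Agent.L7h60.GK
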